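import Pool.Agent.H53.SGC.CDefs

/-!
# Module GC: norm continuity of `x ↦ el k s t (T ↦ h (pt z x T))`
-/

namespace Pool.SG

open scoped Topology ComplexConjugate

theorem gc_bound (h : C(SS, ℂ)) : ∃ C : ℝ, ∀ y, ‖h y‖ ≤ C :=
  ⟨‖h‖, fun y => h.norm_coe_le_norm y⟩

theorem gc_dist (hE : ELStmt) (hA : ELAStmt) (z : ℕ → SS) (k : ℕ) (s t : Finset ℕ)
    (hs : s ⊆ Finset.range k) (ht : t ⊆ Finset.range k) (h : C(SS, ℂ)) (x y : SS) :
    ‖el k s t (fun T => h (pt z x T)) - el k s t (fun T => h (pt z y T))‖ ≤ ‖h x - h y‖ := by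
  obtain ⟨C, hC⟩ := gc_bound h
  have hb : ∀ T, ‖h (pt z x T) - h (pt z y T)‖ ≤ ‖h x - h y‖ := by
    intro T
    unfold pt
    by_cases hT : T.Nonempty
    · rw [dif_pos hT, dif_pos hT, sub_self, norm_zero]
      exact norm_nonneg _
    · rw [dif_neg hT, dif_neg hT]
  have h1 := (hA.2.1 k s t hs ht (fun T => h (pt z y T)) C (fun T => hC _)).2.2.2.1
    (fun T => h (pt z x T) - h (pt z y T)) ‖h x - h y‖ hb
  have h2 : (fun T => h (pt z y T) + (h (pt z x T) - h (pt z y T))) =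
      fun T => h (pt z x T) := by
    funext T
    ring
  have h3 : el k s t (fun T => h (pt z x T)) - el k s t (fun T => h (pt z y T)) =
      el k s t (fun T => h (pt z x T) - h (pt z y T)) := by
    rw [sub_eq_iff_eq_add']
    rw [h2] at h1
    exact h1.symm
  rw [h3]
  exact (hE k s t hs ht _ _ hb).2

theorem gc_cont (hE : ELStmt) (hA : ELAStmt) (z : ℕ → SS) (k : ℕ) (s t : Finset ℕ)
    (hs : s ⊆ Finset.range k) (ht : t ⊆ Finset.range k) (h : C(SS, ℂ)) :
    Continuous (fun x => el k s t (fun T => h (pt z x T))) := by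
  rw [continuous_iff_continuousAt]
  intro y
  unfold ContinuousAt
  rw [tendsto_iff_norm_sub_tendsto_zero]
  have h0 : Filter.Tendsto (fun x => ‖h x - h y‖) (𝓝 y) (𝓝 0) := by
    rw [← tendsto_iff_norm_sub_tendsto_zero]
    exact h.continuous.continuousAt
  exact squeeze_zero (fun x => norm_nonneg _) (fun x => gc_dist hE hA z k s t hs ht h x y) h0

/-- Module GC. -/
theorem gc (hE : ELStmt) (hA : ELAStmt) : GCStmt := by
  intro z k s t hs ht h
  refine ⟨?_, ?_⟩
  · obtain ⟨C, hC⟩ := gc_bound h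
    exact ⟨C, fun x T => hC _⟩
  · intro x
    unfold G
    rw [dif_pos (gc_cont hE hA z k s t hs ht h)]
    rfl

end Pool.SG
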