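import Pool.Agent.H53.SGC.CDefs

/-!
# Module GD: every element of the dense subalgebra is good
-/

namespace Pool.SG

open scoped Topology ComplexConjugate

theorem gd_chi_empty (j : ℕ) : chi j ∅ = 1 := by
  unfold chi
  rw [if_neg]
  rintro ⟨h, -⟩
  exact Finset.not_nonempty_empty h

theorem gd_co_flip (s : Finset ℕ) (hs : s.Nonempty) (β : Fin (NN (s.sup id) + 1)) (j : ℕ)
    (x : SS) : co (s.sup id) β (flip j x) = chi j s * co (s.sup id) β x := by
  unfold chi co flip
  by_cases hj : s.sup id = j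
  · subst hj
    rw [if_pos ⟨hs, rfl⟩]
    show (((Function.update x (s.sup id) (-(x (s.sup id))) (s.sup id) :
      EuclideanSpace ℝ (Fin (NN (s.sup id) + 1))) β : ℝ) : ℂ) =
      -1 * (((x (s.sup id) : EuclideanSpace ℝ (Fin (NN (s.sup id) + 1))) β : ℝ) : ℂ)
    rw [Function.update_self]
    show (((-(x (s.sup id) : EuclideanSpace ℝ (Fin (NN (s.sup id) + 1)))) β : ℝ) : ℂ) = _
    rw [PiLp.neg_apply]
    push_cast
    ring
  · rw [if_neg (fun h => hj h.2), one_mul]
    show (((Function.update x j (-(x j)) (s.sup id) :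
      EuclideanSpace ℝ (Fin (NN (s.sup id) + 1))) β : ℝ) : ℂ) =
      (((x (s.sup id) : EuclideanSpace ℝ (Fin (NN (s.sup id) + 1))) β : ℝ) : ℂ)
    rw [Function.update_of_ne hj]

theorem gd_gen (hGG : GGStmt) (hGA : GAStmt) (z : ℕ → SS) (k : ℕ) (s : Finset ℕ)
    (β : Fin (NN (s.sup id) + 1)) (hs : s ⊆ Finset.range k) (hn : s.Nonempty) :
    Good z k (G z k s ∅ (co (s.sup id) β)) := by
  have he : (∅ : Finset ℕ) ⊆ Finset.range k := Finset.empty_subset _
  refine ⟨?_, ?_⟩
  · apply hGG z k s ∅ hs he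
    intro j x
    rw [gd_chi_empty, mul_one]
    exact gd_co_flip s hn β j x
  · rw [(hGA z k s ∅ hs he _).1]
    apply hGG z k ∅ s he hs
    intro j x
    rw [gd_chi_empty, one_mul]
    show conj (co (s.sup id) β (flip j x)) = chi j s * conj (co (s.sup id) β x)
    rw [gd_co_flip s hn β j x, map_mul]
    congr 1
    unfold chi
    split_ifs <;> simp

/-- Module GD. -/
theorem gd (hGG : GGStmt) (hGA : GAStmt) (hCL : CLStmt) (_ : GCStmt) : GDStmt := by
  intro z f hf
  unfold A0 at hf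
  induction hf using StarAlgebra.adjoin_induction with
  | mem f hf =>
    obtain ⟨k, s, β, hs, hn, rfl⟩ := hf
    exact ⟨k, gd_gen hGG hGA z k s β hs hn⟩
  | algebraMap c =>
    have h0 : ({0} : Finset ℕ) ⊆ Finset.range 1 := by
      intro i hi
      rw [Finset.mem_singleton] at hi
      rw [hi]
      exact Finset.mem_range.mpr one_pos
    have h1 := gd_gen hGG hGA z 1 {0} 0 h0 (Finset.singleton_nonempty 0)
    exact ⟨0, (hCL z _ _ 1 1 h1 h1).2.2.2 c⟩
  | add f g _ _ hf hg =>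
    obtain ⟨k, hk⟩ := hf
    obtain ⟨l, hl⟩ := hg
    exact ⟨max k l, (hCL z _ _ k l hk hl).1⟩
  | mul f g _ _ hf hg =>
    obtain ⟨k, hk⟩ := hf
    obtain ⟨l, hl⟩ := hg
    exact ⟨max k l, (hCL z _ _ k l hk hl).2.1⟩
  | star f _ hf =>
    obtain ⟨k, hk⟩ := hf
    exact ⟨k, (hCL z _ _ k k hk hk).2.2.1⟩

end Pool.SG
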